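import Pool.Agent.L7h70.GC.Coef
import Pool.Agent.L7h73.GC.Det2

/-!
Waring's problem with generic real coefficients, for real exponents `c_i ≥ 1` (in particular for `k`-th powers, all
`c_i = k`): for almost all `(α_1, ..., α_s)` the sums `α_1 x_1^{c_1} + ... + α_s x_s^{c_s}` are dense near infinity
as soon as `∑ 1 / c_i > 2`, and near almost every target as soon as `∑ 1 / c_i > 1`, with power-saving errors.

Method (project GC): for a fixed frequency the exponential sums over the `x_i` depend on different coefficients, so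
the mean over `α` of their product is the product of the means, and second moments give square root cancellation
(`L7h22/GC/Msa`, `L7h22/GC/Prb` by helper22); comparison of a narrow and a wide Gaussian count (kernel of
`L7h43/MW/Kern` by helper43); for almost all targets duality and Cauchy-Schwarz (`L7h73/GC/Det2` by helper73).
-/

set_option autoImplicit false

namespace Pool.Agent.Results.MP_efcac8_nt.GenericCoefficients

open MeasureTheory Filter

/-- For real exponents `c_i ≥ 1` and almost every `α ∈ ℝ ^ s` with positive entries: if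
`∑ 1 / c_i > 2 + 2 δ`, every large real `τ` is at distance less than `τ ^ (-δ)` from a value of
`∑ α_i x_i ^ c_i` at positive integers; if `∑ 1 / c_i > 1 + δ`, the set of the `τ ∈ [1, N]` that are not
has measure at most `N ^ (1 - σ)` for some `σ > 0` and all large `N`. -/
theorem result : ∀ (s : ℕ) (c : Fin s → ℝ), (∀ i, 1 ≤ c i) →
    ∀ᵐ α ∂(volume : Measure (Fin s → ℝ)), (∀ i, 0 < α i) →
      (∀ δ : ℝ, 0 ≤ δ → 2 + 2 * δ < ∑ i, 1 / c i → ∀ᶠ τ : ℝ in atTop,
        ∃ x : Fin s → ℕ, (∀ i, 0 < x i) ∧ |∑ i, α i * (x i : ℝ) ^ c i - τ| < τ ^ (-δ)) ∧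
      (∀ δ : ℝ, 0 ≤ δ → 1 + δ < ∑ i, 1 / c i → ∃ σ : ℝ, 0 < σ ∧ ∀ᶠ N : ℕ in atTop,
        volume {τ : ℝ | 1 ≤ τ ∧ τ ≤ N ∧ ∀ x : Fin s → ℕ, (∀ i, 0 < x i) →
          τ ^ (-δ) ≤ |∑ i, α i * (x i : ℝ) ^ c i - τ|} ≤ ENNReal.ofReal ((N : ℝ) ^ (1 - σ))) :=
  fun s c hc => Pool.Agent.L7h70.GC.coef_both
    (Pool.Agent.L7h73.GC.s_DET2 Pool.Agent.L7h70.GC.s_COARSE) (Fin s) c hc

end Pool.Agent.Results.MP_efcac8_nt.GenericCoefficients
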