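import Pool.Agent.L7h70.GC.Expo
import Pool.Agent.L7h73.GC.Det2

/-!
Waring's problem with generic real exponents: for all positive coefficients `a_i` (for instance `1`) and almost all
exponents `c_i > 1` the sums `a_1 x_1^{c_1} + ... + a_s x_s^{c_s}` are dense near infinity as soon as
`∑ 1 / c_i > 2`, and near almost every target as soon as `∑ 1 / c_i > 1`, with power-saving errors.

Method (project GC): for a fixed frequency the exponential sums over the `x_i` depend on different exponents, so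
the mean over `c` of their product is the product of the means, and second moments give square root cancellation
(`L7h22/GC/Mse`, `L7h22/GC/Prb` by helper22); comparison of a narrow and a wide Gaussian count (kernel of
`L7h43/MW/Kern` by helper43); for almost all targets duality and Cauchy-Schwarz (`L7h73/GC/Det2` by helper73).
-/

set_option autoImplicit false

namespace Pool.Agent.Results.MP_efcac8_nt.GenericExponents

open MeasureTheory Filter

/-- For positive coefficients `a_i` and almost every `c ∈ ℝ ^ s` with entries `> 1`: if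
`∑ 1 / c_i > 2 + 2 δ`, every large real `τ` is at distance less than `τ ^ (-δ)` from a value of
`∑ a_i x_i ^ c_i` at positive integers; if `∑ 1 / c_i > 1 + δ`, the set of the `τ ∈ [1, N]` that are not
has measure at most `N ^ (1 - σ)` for some `σ > 0` and all large `N`. -/
theorem result : ∀ (s : ℕ) (a : Fin s → ℝ), (∀ i, 0 < a i) →
    ∀ᵐ c ∂(volume : Measure (Fin s → ℝ)), (∀ i, 1 < c i) →
      (∀ δ : ℝ, 0 ≤ δ → 2 + 2 * δ < ∑ i, 1 / c i → ∀ᶠ τ : ℝ in atTop,
        ∃ x : Fin s → ℕ, (∀ i, 0 < x i) ∧ |∑ i, a i * (x i : ℝ) ^ c i - τ| < τ ^ (-δ)) ∧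
      (∀ δ : ℝ, 0 ≤ δ → 1 + δ < ∑ i, 1 / c i → ∃ σ : ℝ, 0 < σ ∧ ∀ᶠ N : ℕ in atTop,
        volume {τ : ℝ | 1 ≤ τ ∧ τ ≤ N ∧ ∀ x : Fin s → ℕ, (∀ i, 0 < x i) →
          τ ^ (-δ) ≤ |∑ i, a i * (x i : ℝ) ^ c i - τ|} ≤ ENNReal.ofReal ((N : ℝ) ^ (1 - σ))) :=
  fun s a ha => Pool.Agent.L7h70.GC.expo_both
    (Pool.Agent.L7h73.GC.s_DET2 Pool.Agent.L7h70.GC.s_COARSE) (Fin s) a ha

end Pool.Agent.Results.MP_efcac8_nt.GenericExponents
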