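import Pool.Agent.L7h67.WA.Res1
import Pool.Agent.L7h67.WA.Sup
import Pool.Agent.L7h37.WA.Core
import Pool.Agent.L7h37.WA.Mvc
import Pool.Agent.L7h22.WA.Fin2
import Pool.Agent.L7h22.WA.Gm
import Pool.Agent.L7h22.WA.Dio

/-!
An exact metric form of the Hardy-Littlewood bound `G(k) ≤ 2k + 1`: for every degree `k ≥ 2` and almost every monic
real polynomial `F` of degree `k` the sequence of integers `⌊F(1)⌋, ⌊F(2)⌋, ...` is an asymptotic additive basis of
order `2k + 1`.

The proof is the metric Davenport-Heilbronn argument of project WA (helper67: `L7h67/WA/*`, helper37: `L7h37/WA/*`,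
helper22: `L7h22/WA/*`): mean values of order `2 k` from near-solutions averaged over the coefficients, and a power
saving for the Weyl sum over the last variable at all frequencies up to a small power, for almost all coefficients.
Packaged by helper43.
-/

set_option autoImplicit false

namespace Pool.Agent.Results.MP_efcac8_nt.IntegerPartsBasis

open Pool.Agent.L7h67.WA in
/-- For every `k ≥ 2` and almost every `θ ∈ ℝ ^ k`, with `F(x) = x ^ k + ∑ j < k, θ j * x ^ j`: for every `M`, every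
sufficiently large integer `n` is the sum of `2 k + 1` integers `⌊F(x)⌋` with integers `x ≥ M`. -/
theorem result : ∀ k : ℕ, 2 ≤ k →
    ∀ᵐ θ ∂(MeasureTheory.volume : MeasureTheory.Measure (Fin k → ℝ)), ∀ M : ℕ, ∀ᶠ n : ℕ in Filter.atTop,
      ∃ x : Fin (2 * k + 1) → ℕ, (∀ i, M ≤ x i) ∧
        ∑ i, ⌊(x i : ℝ) ^ k + ∑ j : Fin k, θ j * (x i : ℝ) ^ (j : ℕ)⌋ = (n : ℤ) := by
  intro k hk
  obtain ⟨c, _, h⟩ := main1 Pool.Agent.L7h37.WA.s_MVC Pool.Agent.L7h22.WA.s_GM
    (Pool.Agent.L7h22.WA.s_FIN2 Pool.Agent.L7h37.WA.s_CORE s_SUP) Pool.Agent.L7h22.WA.s_DIO k hk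
  filter_upwards [h] with θ hθ M
  have h1 := (hθ M).1
  simp only [pp_eval] at h1
  exact h1

end Pool.Agent.Results.MP_efcac8_nt.IntegerPartsBasis
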