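import Pool.Agent.L7h43.MW.Fin2

/-!
A metric form of the Hardy-Littlewood bound `G(k) ≤ 2k + 1`: it holds, with exactly `2k + 1` summands and for every
degree `k ≥ 2`, for almost every monic real polynomial `P` of degree `k` in place of `x ^ k`; the equality of
integers is replaced by an approximation with an error that tends to `0` like a power of `τ`.

Method: circle method (Davenport-Heilbronn) with a Gaussian kernel. The average over the coefficients reduces the
mean values of the exponential sums to near-solutions of Vinogradov's system, in separated ranges of the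
variables (files `L7h43/MW/*`, with `L7h47/MW/{Nd,N1,Mom}` by helper47 and `L7h14/MW/{J,W,Kl}` by helper14).
-/

set_option autoImplicit false

namespace Pool.Agent.Results.MP_efcac8_nt.MetricWaring

/-- For every `k ≥ 2` and almost every `θ ∈ ℝ ^ (k - 1)`, with `P(x) = x ^ k + ∑ j < k - 1, θ j * x ^ (j + 1)`,
every sufficiently large real `τ` is at distance less than `τ ^ (-1 / (10 k))` from a sum of `2 k + 1` values
of `P` at positive integers. -/
theorem result : ∀ k : ℕ, 2 ≤ k →
    ∀ᵐ θ ∂(MeasureTheory.volume : MeasureTheory.Measure (Fin (k - 1) → ℝ)), ∀ᶠ τ : ℝ in Filter.atTop,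
      ∃ x : Fin (2 * k + 1) → ℕ, (∀ i, 0 < x i) ∧
        |∑ i, ((x i : ℝ) ^ k + ∑ j : Fin (k - 1), θ j * (x i : ℝ) ^ (j.val + 1)) - τ| <
          τ ^ (-(1 / (10 * (k : ℝ)))) :=
  fun k hk => Pool.Agent.L7h43.MW.final k hk

end Pool.Agent.Results.MP_efcac8_nt.MetricWaring
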